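import Mathlib
import Pool.Agent.H904R3.Gen

/-!
# A topological zero-one law for finite modifications
-/

set_option linter.style.haveILetI false

open Set Filter Topology MeasureTheory

namespace Pool.Agent.X218.BV

variable {P : Type} {L : P → Type} [∀ p, TopologicalSpace (L p)] [∀ p, DiscreteTopology (L p)]

/-- Replace the coordinates in `S` by those of `a`. -/
noncomputable def modif (S : Finset P) (a : ∀ p, L p) (ω : ∀ p, L p) : ∀ p, L p := by
  classical
  exact fun p => if p ∈ S then a p else ω p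

theorem modif_mem {S : Finset P} {a ω : ∀ p, L p} {p : P} (h : p ∈ S) :
    modif S a ω p = a p := by
  simp [modif, h]

theorem modif_notMem {S : Finset P} {a ω : ∀ p, L p} {p : P} (h : p ∉ S) :
    modif S a ω p = ω p := by
  simp [modif, h]

theorem isOpen_agree (T : Finset P) (a : ∀ p, L p) : IsOpen {y : ∀ p, L p | ∀ p ∈ T, y p = a p} := by
  have : {y : ∀ p, L p | ∀ p ∈ T, y p = a p} = ⋂ p ∈ T, (fun y : ∀ p, L p => y p) ⁻¹' {a p} := by
    ext y; simp
  rw [this]
  exact isOpen_biInter_finset fun p _ => (isOpen_discrete _).preimage (continuous_apply p)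

theorem exists_agree {u : Set (∀ p, L p)} (hu : IsOpen u) {a : ∀ p, L p} (ha : a ∈ u) :
    ∃ T : Finset P, {y : ∀ p, L p | ∀ p ∈ T, y p = a p} ⊆ u := by
  obtain ⟨F, v, hv, hs⟩ := isOpen_pi_iff.1 hu a ha
  refine ⟨F, fun y hy => hs fun p hp => ?_⟩
  have h1 : y p = a p := hy p hp
  rw [h1]
  exact (hv p hp).2

theorem continuous_modif (S : Finset P) (a : ∀ p, L p) : Continuous (modif S a) := by
  refine continuous_pi fun p => ?_
  by_cases h : p ∈ S
  · simp only [modif_mem h]
    exact continuous_const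
  · simp only [modif_notMem h]
    exact continuous_apply p

theorem isOpenMap_modif (S : Finset P) (a : ∀ p, L p) : IsOpenMap (modif S a) := by
  classical
  intro O hO
  rw [isOpen_iff_mem_nhds]
  rintro _ ⟨ω, hω, rfl⟩
  obtain ⟨T, hT⟩ := exists_agree hO hω
  refine mem_of_superset ((isOpen_agree (T ∪ S) (modif S a ω)).mem_nhds (fun p _ => rfl)) ?_
  intro y hy
  refine ⟨modif S ω y, hT fun p hp => ?_, ?_⟩
  · by_cases h : p ∈ S
    · exact modif_mem h
    · rw [modif_notMem h, hy p (Finset.mem_union_left _ hp), modif_notMem h]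
  · funext p
    by_cases h : p ∈ S
    · rw [modif_mem h, hy p (Finset.mem_union_right _ h), modif_mem h]
    · rw [modif_notMem h, modif_notMem h]

/-- The zero-one law. -/
theorem zero_one {A u : Set (∀ p, L p)} (hu : IsOpen u)
    (h : ∀ᶠ ω in residual (∀ p, L p), (ω ∈ A ↔ ω ∈ u))
    (inv : ∀ ω ω' : ∀ p, L p, {p | ω p ≠ ω' p}.Finite → ω ∈ A → ω' ∈ A) :
    (∀ᶠ ω in residual (∀ p, L p), ω ∈ A) ∨ (∀ᶠ ω in residual (∀ p, L p), ω ∉ A) := by
  rcases eq_empty_or_nonempty u with hu0 | ⟨a, ha⟩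
  · right
    filter_upwards [h] with ω hω h1
    have := hω.1 h1
    rw [hu0] at this
    exact this
  · left
    obtain ⟨S, hS⟩ := exists_agree hu ha
    have h1 : ∀ᶠ ω in residual (∀ p, L p), (modif S a ω ∈ A ↔ modif S a ω ∈ u) :=
      (tendsto_residual_of_isOpenMap (continuous_modif S a) (isOpenMap_modif S a)).eventually h
    filter_upwards [h1] with ω hω
    have h2 : modif S a ω ∈ A := hω.2 (hS fun p hp => modif_mem hp)
    refine inv _ ω ?_ h2
    refine S.finite_toSet.subset fun p hp => ?_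
    by_contra h3
    exact hp (modif_notMem h3)

/-- For countably many invariant analytic sets, a generic point and its image under a
homeomorphism have the same behaviour. -/
theorem exists_generic [Countable P] [∀ p, Finite (L p)] [∀ p, Nonempty (L p)]
    (A : ℕ → Set (∀ p, L p)) (hA : ∀ n, AnalyticSet (A n))
    (inv : ∀ n, ∀ ω ω' : ∀ p, L p, {p | ω p ≠ ω' p}.Finite → ω ∈ A n → ω' ∈ A n)
    (φ : (∀ p, L p) ≃ₜ (∀ p, L p)) : ∃ ω : ∀ p, L p, ∀ n, (ω ∈ A n ↔ φ ω ∈ A n) := by
  have h1 : ∀ n, (∀ᶠ ω in residual (∀ p, L p), ω ∈ A n) ∨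
      (∀ᶠ ω in residual (∀ p, L p), ω ∉ A n) := by
    intro n
    obtain ⟨u, hu1, hu2⟩ := Pool.Agent.H904R3.analytic_baire (hA n)
    exact zero_one hu1 hu2 (inv n)
  have h2 : ∀ n, ∀ᶠ ω in residual (∀ p, L p), (ω ∈ A n ↔ φ ω ∈ A n) := by
    intro n
    have hφ := tendsto_residual_of_isOpenMap φ.continuous φ.isOpenMap
    rcases h1 n with h | h
    · filter_upwards [h, hφ.eventually h] with ω h3 h4
      exact ⟨fun _ => h4, fun _ => h3⟩
    · filter_upwards [h, hφ.eventually h] with ω h3 h4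
      exact ⟨fun h5 => absurd h5 h3, fun h5 => absurd h5 h4⟩
  have h3 : ∀ᶠ ω in residual (∀ p, L p), ∀ n, (ω ∈ A n ↔ φ ω ∈ A n) := by
    rw [eventually_countable_forall]
    exact h2
  have hne : Nonempty (∀ p, L p) := inferInstance
  obtain ⟨ω, hω⟩ := (dense_of_mem_residual h3).nonempty
  exact ⟨ω, hω⟩

end Pool.Agent.X218.BV
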