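import Mathlib
import Pool.Agent.X218.BV.ZeroOne

/-!
# Cardinalities of the sections of a closed set
-/

set_option linter.style.haveILetI false

open Set Filter Topology MeasureTheory TopologicalSpace

namespace Pool.Agent.X218.BV

variable {Ω X : Type} [TopologicalSpace Ω] [PolishSpace Ω] [TopologicalSpace X] [PolishSpace X]

theorem card_cantor : Cardinal.mk (ℕ → Bool) = Cardinal.continuum := by
  rw [← Cardinal.power_def, Cardinal.mk_bool]
  simp

/-- The section of `C` at `ω`. -/
def sec (C : Set (Ω × X)) (ω : Ω) : Set X := {x | (ω, x) ∈ C}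

theorem isClosed_sec {C : Set (Ω × X)} (hC : IsClosed C) (ω : Ω) : IsClosed (sec C ω) :=
  hC.preimage (by fun_prop : Continuous fun x : X => (ω, x))

/-- The points whose section has at least `n` elements. -/
def atLeast (C : Set (Ω × X)) (n : ℕ) : Set Ω :=
  {ω | ∃ x : Fin n → X, Function.Injective x ∧ ∀ i, (ω, x i) ∈ C}

theorem analytic_atLeast {C : Set (Ω × X)} (hC : IsClosed C) (n : ℕ) :
    AnalyticSet (atLeast C n) := by
  borelize (Ω × (Fin n → X))
  have h1 : IsOpen {p : Ω × (Fin n → X) | Function.Injective p.2} := by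
    have : {p : Ω × (Fin n → X) | Function.Injective p.2} =
        ⋂ i : Fin n, ⋂ j : Fin n, {p | i = j ∨ p.2 i ≠ p.2 j} := by
      ext p
      simp only [mem_setOf_eq, mem_iInter]
      constructor
      · intro h i j
        by_cases hij : i = j
        · exact Or.inl hij
        · exact Or.inr fun h' => hij (h h')
      · intro h i j hij
        rcases h i j with h' | h'
        · exact h'
        · exact absurd hij h'
    rw [this]
    refine isOpen_iInter_of_finite fun i => isOpen_iInter_of_finite fun j => ?_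
    by_cases hij : i = j
    · simp [hij]
    · simp only [hij, false_or]
      exact isOpen_ne_fun (by fun_prop) (by fun_prop)
  have h2 : IsClosed {p : Ω × (Fin n → X) | ∀ i, (p.1, p.2 i) ∈ C} := by
    have : {p : Ω × (Fin n → X) | ∀ i, (p.1, p.2 i) ∈ C} =
        ⋂ i : Fin n, (fun p : Ω × (Fin n → X) => (p.1, p.2 i)) ⁻¹' C := by
      ext p; simp
    rw [this]
    exact isClosed_iInter fun i => hC.preimage (by fun_prop)
  have h3 := (h1.measurableSet.inter h2.measurableSet).analyticSet.image_of_continuous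
    (continuous_fst (X := Ω) (Y := Fin n → X))
  convert h3 using 1
  ext ω
  constructor
  · rintro ⟨x, hx1, hx2⟩
    exact ⟨(ω, x), ⟨hx1, hx2⟩, rfl⟩
  · rintro ⟨⟨ω', x⟩, ⟨hx1, hx2⟩, rfl⟩
    exact ⟨x, hx1, hx2⟩

/-- The points whose section is uncountable. -/
def uncount (C : Set (Ω × X)) : Set Ω := {ω | ¬ (sec C ω).Countable}

theorem uncount_iff {C : Set (Ω × X)} (hC : IsClosed C) (ω : Ω) : ω ∈ uncount C ↔
    ∃ x : ℕ → X, (∀ j, (ω, x j) ∈ C) ∧ ∀ (U : countableBasis X) (j : ℕ), x j ∈ (U : Set X) →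
      ∃ k, x k ∈ (U : Set X) ∧ x k ≠ x j := by
  constructor
  · intro h
    obtain ⟨D, hD, ⟨d0, hd0⟩, hDC⟩ :=
      exists_perfect_nonempty_of_isClosed_of_not_countable (isClosed_sec hC ω) h
    haveI : Nonempty D := ⟨⟨d0, hd0⟩⟩
    refine ⟨fun j => (denseSeq D j : X), fun j => hDC (denseSeq D j).2, ?_⟩
    rintro ⟨U, hU⟩ j hj
    have hUo := isOpen_of_mem_countableBasis hU
    have hacc := hD.acc _ (denseSeq D j).2
    rw [accPt_iff_nhds] at hacc
    obtain ⟨y, ⟨hyU, hyD⟩, hyne⟩ := hacc U (hUo.mem_nhds hj)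
    have ho : IsOpen (Subtype.val ⁻¹' (U ∩ {(denseSeq D j : X)}ᶜ) : Set D) :=
      (hUo.inter isOpen_compl_singleton).preimage continuous_subtype_val
    obtain ⟨z, hz, ⟨k, rfl⟩⟩ := (denseRange_denseSeq D).inter_open_nonempty _ ho ⟨⟨y, hyD⟩, hyU, hyne⟩
    exact ⟨k, hz.1, hz.2⟩
  · rintro ⟨x, hx1, hx2⟩ hcount
    letI := upgradeIsCompletelyMetrizable X
    have hpre : Preperfect (range x) := by
      rintro _ ⟨j, rfl⟩
      rw [accPt_iff_nhds]
      intro V hV
      obtain ⟨U, hU, hjU, hUV⟩ := (isBasis_countableBasis X).mem_nhds_iff.1 hV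
      obtain ⟨k, hk1, hk2⟩ := hx2 ⟨U, hU⟩ j hjU
      exact ⟨x k, ⟨hUV hk1, mem_range_self k⟩, hk2⟩
    have hperf := hpre.perfect_closure
    obtain ⟨f, hf1, -, hf3⟩ := hperf.exists_nat_bool_injection
      ⟨x 0, subset_closure (mem_range_self 0)⟩
    have h1 : closure (range x) ⊆ sec C ω :=
      closure_minimal (by rintro _ ⟨j, rfl⟩; exact hx1 j) (isClosed_sec hC ω)
    have h2 : (range f).Countable := hcount.mono (hf1.trans h1)
    have h3 : Countable (ℕ → Bool) := by
      have := h2.to_subtype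
      exact (Equiv.ofInjective f hf3).countable_iff.2 this
    have h5 := card_cantor
    have h6 : Cardinal.mk (ℕ → Bool) ≤ Cardinal.aleph0 := Cardinal.mk_le_aleph0_iff.2 h3
    rw [h5] at h6
    exact absurd h6 (not_le.2 Cardinal.aleph0_lt_continuum)

theorem analytic_uncount {C : Set (Ω × X)} (hC : IsClosed C) : AnalyticSet (uncount C) := by
  borelize (Ω × (ℕ → X))
  have h1 : MeasurableSet {p : Ω × (ℕ → X) | ∀ j, (p.1, p.2 j) ∈ C} := by
    have : {p : Ω × (ℕ → X) | ∀ j, (p.1, p.2 j) ∈ C} =
        ⋂ j : ℕ, (fun p : Ω × (ℕ → X) => (p.1, p.2 j)) ⁻¹' C := by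
      ext p; simp
    rw [this]
    exact (isClosed_iInter fun i => hC.preimage (by fun_prop)).measurableSet
  haveI : Countable (countableBasis X) := (countable_countableBasis X).to_subtype
  have h2 : MeasurableSet {p : Ω × (ℕ → X) | ∀ (U : countableBasis X) (j : ℕ),
      p.2 j ∈ (U : Set X) → ∃ k, p.2 k ∈ (U : Set X) ∧ p.2 k ≠ p.2 j} := by
    have : {p : Ω × (ℕ → X) | ∀ (U : countableBasis X) (j : ℕ),
        p.2 j ∈ (U : Set X) → ∃ k, p.2 k ∈ (U : Set X) ∧ p.2 k ≠ p.2 j} =
        ⋂ (U : countableBasis X), ⋂ j : ℕ, ({p | p.2 j ∈ (U : Set X)}ᶜ ∪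
          ⋃ k : ℕ, ({p | p.2 k ∈ (U : Set X)} ∩ {p | p.2 k ≠ p.2 j})) := by
      ext p
      simp only [mem_setOf_eq, mem_iInter, mem_union, mem_compl_iff, mem_iUnion, mem_inter_iff]
      refine forall_congr' fun U => forall_congr' fun j => ?_
      exact imp_iff_not_or
    rw [this]
    refine MeasurableSet.iInter fun U => MeasurableSet.iInter fun j => MeasurableSet.union ?_ ?_
    · have : IsOpen {p : Ω × (ℕ → X) | p.2 j ∈ (U : Set X)} :=
        (isOpen_of_mem_countableBasis U.2).preimage (by fun_prop)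
      exact this.measurableSet.compl
    · refine MeasurableSet.iUnion fun k => MeasurableSet.inter ?_ ?_
      · have : IsOpen {p : Ω × (ℕ → X) | p.2 k ∈ (U : Set X)} :=
          (isOpen_of_mem_countableBasis U.2).preimage (by fun_prop)
        exact this.measurableSet
      · have : IsOpen {p : Ω × (ℕ → X) | p.2 k ≠ p.2 j} := isOpen_ne_fun (by fun_prop) (by fun_prop)
        exact this.measurableSet
  have h3 := (h1.inter h2).analyticSet.image_of_continuous
    (continuous_fst (X := Ω) (Y := ℕ → X))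
  convert h3 using 1
  ext ω
  rw [uncount_iff hC]
  constructor
  · rintro ⟨x, hx1, hx2⟩
    exact ⟨(ω, x), ⟨hx1, hx2⟩, rfl⟩
  · rintro ⟨⟨ω', x⟩, ⟨hx1, hx2⟩, rfl⟩
    exact ⟨x, hx1, hx2⟩

/-- The countable family of invariants. -/
def fam (C : Set (Ω × X)) : ℕ → Set Ω
  | 0 => uncount C
  | n + 1 => atLeast C n

theorem analytic_fam {C : Set (Ω × X)} (hC : IsClosed C) : ∀ n, AnalyticSet (fam C n)
  | 0 => analytic_uncount hC
  | n + 1 => analytic_atLeast hC n

theorem mem_atLeast_iff {C : Set (Ω × X)} {ω : Ω} {n : ℕ} :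
    ω ∈ atLeast C n ↔ Nonempty (Fin n ↪ sec C ω) := by
  constructor
  · rintro ⟨x, hx1, hx2⟩
    exact ⟨⟨fun i => ⟨x i, hx2 i⟩, fun i j h => hx1 (congrArg Subtype.val h)⟩⟩
  · rintro ⟨f⟩
    exact ⟨fun i => (f i : X), fun i j h => f.injective (Subtype.ext h), fun i => (f i).2⟩

/-- Membership in the family only depends on the cardinality of the section. -/
theorem fam_congr {C : Set (Ω × X)} {ω ω' : Ω} (e : sec C ω ≃ sec C ω') (n : ℕ) :
    ω ∈ fam C n → ω' ∈ fam C n := by
  rcases n with _ | n
  · intro h h'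
    apply h
    have := h'.to_subtype
    exact countable_coe_iff.1 (e.countable_iff.2 this)
  · intro h
    obtain ⟨f⟩ := mem_atLeast_iff.1 h
    exact mem_atLeast_iff.2 ⟨f.trans e.toEmbedding⟩

/-- Two points with the same behaviour have equinumerous sections. -/
theorem equiv_of_fam {C : Set (Ω × X)} (hC : IsClosed C) {ω ω' : Ω}
    (h : ∀ n, (ω ∈ fam C n ↔ ω' ∈ fam C n)) : Nonempty (sec C ω ≃ sec C ω') := by
  have h0 := h 0
  have hn : ∀ n, (Nonempty (Fin n ↪ sec C ω) ↔ Nonempty (Fin n ↪ sec C ω')) := by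
    intro n
    rw [← mem_atLeast_iff, ← mem_atLeast_iff]
    exact h (n + 1)
  by_cases hc : (sec C ω).Countable
  · have hc' : (sec C ω').Countable := by
      by_contra hcon
      exact h0.2 hcon hc
    haveI := hc.to_subtype
    haveI := hc'.to_subtype
    have hinf : Infinite (sec C ω) ↔ Infinite (sec C ω') := by
      constructor
      · intro h1
        by_contra h2
        rw [not_infinite_iff_finite] at h2
        haveI := Fintype.ofFinite (sec C ω')
        obtain ⟨f⟩ := (hn (Fintype.card (sec C ω') + 1)).1 ⟨(Fin.valEmbedding).trans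
          (Infinite.natEmbedding _)⟩
        have := Fintype.card_le_of_embedding f
        simp at this
      · intro h1
        by_contra h2
        rw [not_infinite_iff_finite] at h2
        haveI := Fintype.ofFinite (sec C ω)
        obtain ⟨f⟩ := (hn (Fintype.card (sec C ω) + 1)).2 ⟨(Fin.valEmbedding).trans
          (Infinite.natEmbedding _)⟩
        have := Fintype.card_le_of_embedding f
        simp at this
    by_cases h1 : Infinite (sec C ω)
    · haveI := hinf.1 h1
      haveI := Encodable.ofCountable (sec C ω)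
      haveI := Encodable.ofCountable (sec C ω')
      haveI := Denumerable.ofEncodableOfInfinite (sec C ω)
      haveI := Denumerable.ofEncodableOfInfinite (sec C ω')
      exact ⟨(Denumerable.eqv _).trans (Denumerable.eqv _).symm⟩
    · have h2 : ¬ Infinite (sec C ω') := fun h => h1 (hinf.2 h)
      rw [not_infinite_iff_finite] at h1 h2
      haveI := Fintype.ofFinite (sec C ω)
      haveI := Fintype.ofFinite (sec C ω')
      refine ⟨Fintype.equivOfCardEq (le_antisymm ?_ ?_)⟩
      · obtain ⟨f⟩ := (hn (Fintype.card (sec C ω))).1 ⟨(Fintype.equivFin _).symm.toEmbedding⟩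
        simpa using Fintype.card_le_of_embedding f
      · obtain ⟨f⟩ := (hn (Fintype.card (sec C ω'))).2 ⟨(Fintype.equivFin _).symm.toEmbedding⟩
        simpa using Fintype.card_le_of_embedding f
  · have hc' : ¬ (sec C ω').Countable := h0.1 hc
    borelize X
    haveI : StandardBorelSpace (sec C ω) := (isClosed_sec hC ω).measurableSet.standardBorel
    haveI : StandardBorelSpace (sec C ω') := (isClosed_sec hC ω').measurableSet.standardBorel
    exact ⟨(PolishSpace.measurableEquivOfNotCountable
      (fun h => hc (countable_coe_iff.1 h)) (fun h => hc' (countable_coe_iff.1 h))).toEquiv⟩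

end Pool.Agent.X218.BV
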