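import Mathlib
import Pool.Agent.X218.BV.Sections

/-!
# Generalized Bratteli diagrams and Vershik maps
-/

set_option linter.style.haveILetI false

open Set Filter Topology MeasureTheory TopologicalSpace

namespace Pool.Agent.X218.BV

/-- A generalized Bratteli diagram: countably infinite levels `V i`, countable sets `E i` of edges
from `V i` to `V (i + 1)`, every vertex is the source of an edge, and every vertex outside of level
`0` is the range of at least one and at most finitely many edges. -/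
structure Diagram where
  /-- the levels of vertices -/
  V : ℕ → Type
  /-- the levels of edges -/
  E : ℕ → Type
  countV : ∀ i, Countable (V i)
  infV : ∀ i, Infinite (V i)
  countE : ∀ i, Countable (E i)
  /-- source -/
  s : ∀ i, E i → V i
  /-- range -/
  r : ∀ i, E i → V (i + 1)
  s_surj : ∀ i, Function.Surjective (s i)
  r_surj : ∀ i, Function.Surjective (r i)
  r_fin : ∀ i (v : V (i + 1)), Finite {e : E i // r i e = v}

variable (B : Diagram)

instance (i : ℕ) : TopologicalSpace (B.E i) := ⊥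
instance (i : ℕ) : DiscreteTopology (B.E i) := ⟨rfl⟩
instance (i : ℕ) : Countable (B.E i) := B.countE i
instance (i : ℕ) : Countable (B.V i) := B.countV i
instance (i : ℕ) : Nonempty (B.E i) := by
  obtain ⟨v⟩ := @Infinite.nonempty _ (B.infV i)
  exact ⟨(B.s_surj i v).choose⟩

/-- The path space. -/
def Path : Type := {x : ∀ i, B.E i // ∀ i, B.r i (x i) = B.s (i + 1) (x (i + 1))}

instance : TopologicalSpace (Path B) :=
  inferInstanceAs (TopologicalSpace {x : ∀ i, B.E i // ∀ i, B.r i (x i) = B.s (i + 1) (x (i + 1))})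

theorem isClosed_paths :
    IsClosed {x : ∀ i, B.E i | ∀ i, B.r i (x i) = B.s (i + 1) (x (i + 1))} := by
  have : {x : ∀ i, B.E i | ∀ i, B.r i (x i) = B.s (i + 1) (x (i + 1))} =
      ⋂ i, (fun x : ∀ i, B.E i => (x i, x (i + 1))) ⁻¹'
        {p : B.E i × B.E (i + 1) | B.r i p.1 = B.s (i + 1) p.2} := by
    ext x; simp
  rw [this]
  exact isClosed_iInter fun i => (isClosed_discrete _).preimage
    ((continuous_apply i).prodMk (continuous_apply (i + 1)))

instance : PolishSpace (Path B) := by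
  haveI : PolishSpace (∀ i, B.E i) := {}
  exact (isClosed_paths B).polishSpace

instance : MeasurableSpace (Path B) := borel (Path B)
instance : BorelSpace (Path B) := ⟨rfl⟩

variable {B}

/-! ### canonical paths to a vertex -/

/-- The canonical sequence ending at `v` (junk from index `n` on). -/
noncomputable def up (m : ∀ i, B.V (i + 1) → B.E i) : ∀ n, B.V n → ∀ i, B.E i
  | 0, _ => fun _ => Classical.arbitrary _
  | n + 1, v => Function.update (up m n (B.s n (m n v))) n (m n v)

theorem up_last (m : ∀ i, B.V (i + 1) → B.E i) (n : ℕ) (v : B.V (n + 1)) :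
    up m (n + 1) v n = m n v := by
  simp [up]

theorem up_lt (m : ∀ i, B.V (i + 1) → B.E i) (n : ℕ) (v : B.V (n + 1)) {i : ℕ} (hi : i < n) :
    up m (n + 1) v i = up m n (B.s n (m n v)) i := by
  simp only [up]
  exact Function.update_of_ne (ne_of_lt hi) _ _

theorem up_mem (m : ∀ i, B.V (i + 1) → B.E i) (hm : ∀ i v, B.r i (m i v) = v) :
    ∀ n (v : B.V n) i, i < n → up m n v i = m i (B.r i (up m n v i)) := by
  intro n
  induction n with
  | zero => intro v i hi; omega
  | succ n ih =>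
    intro v i hi
    rcases Nat.lt_succ_iff_lt_or_eq.1 hi with h | rfl
    · rw [up_lt m n v h]
      exact ih _ i h
    · rw [up_last, hm]

theorem up_path (m : ∀ i, B.V (i + 1) → B.E i) (hm : ∀ i v, B.r i (m i v) = v) :
    ∀ n (v : B.V n) i, i + 1 < n → B.r i (up m n v i) = B.s (i + 1) (up m n v (i + 1)) := by
  intro n
  induction n with
  | zero => intro v i hi; omega
  | succ n ih =>
    intro v i hi
    rcases Nat.lt_succ_iff_lt_or_eq.1 hi with h | h
    · rw [up_lt m n v (by omega), up_lt m n v h]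
      exact ih _ i h
    · subst h
      rw [up_last, up_lt m (i + 1) v (Nat.lt_succ_self i), up_last, hm]

/-- Uniqueness of canonical paths. -/
theorem up_unique (m : ∀ i, B.V (i + 1) → B.E i) (y : ∀ i, B.E i) :
    ∀ n, (∀ i < n, B.r i (y i) = B.s (i + 1) (y (i + 1))) → (∀ i < n, y i = m i (B.r i (y i))) →
      ∀ i < n, y i = up m n (B.s n (y n)) i := by
  intro n
  induction n with
  | zero => intro _ _ i hi; omega
  | succ n ih =>
    intro hp hy i hi
    have h1 : y n = m n (B.s (n + 1) (y (n + 1))) := by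
      rw [← hp n (Nat.lt_succ_self n)]
      exact hy n (Nat.lt_succ_self n)
    rcases Nat.lt_succ_iff_lt_or_eq.1 hi with h | rfl
    · rw [up_lt m n _ h, ← h1]
      exact ih (fun i hi => hp i (Nat.lt_succ_of_lt hi)) (fun i hi => hy i (Nat.lt_succ_of_lt hi)) i h
    · rw [up_last, ← h1]

/-- Replace the first `n` edges by the canonical path. -/
noncomputable def fill (m : ∀ i, B.V (i + 1) → B.E i) (hm : ∀ i v, B.r i (m i v) = v) (n : ℕ)
    (z : ∀ i, B.E i) (hz : ∀ i, n ≤ i → B.r i (z i) = B.s (i + 1) (z (i + 1))) : Path B :=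
  ⟨fun i => if i < n then up m n (B.s n (z n)) i else z i, by
    intro i
    by_cases h1 : i + 1 < n
    · have h2 : i < n := by omega
      simp only [h1, h2, if_true]
      exact up_path m hm n _ i h1
    · by_cases h2 : i < n
      · have h3 : n = i + 1 := by omega
        subst h3
        simp only [lt_irrefl, if_false, Nat.lt_succ_self, if_true]
        rw [up_last, hm]
      · simp only [h1, h2, if_false]
        exact hz i (by omega)⟩

theorem fill_lt (m : ∀ i, B.V (i + 1) → B.E i) (hm : ∀ i v, B.r i (m i v) = v) (n : ℕ)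
    (z : ∀ i, B.E i) (hz : ∀ i, n ≤ i → B.r i (z i) = B.s (i + 1) (z (i + 1))) {i : ℕ}
    (hi : i < n) : (fill m hm n z hz).1 i = up m n (B.s n (z n)) i := by
  simp [fill, hi]

theorem fill_ge (m : ∀ i, B.V (i + 1) → B.E i) (hm : ∀ i v, B.r i (m i v) = v) (n : ℕ)
    (z : ∀ i, B.E i) (hz : ∀ i, n ≤ i → B.r i (z i) = B.s (i + 1) (z (i + 1))) {i : ℕ}
    (hi : n ≤ i) : (fill m hm n z hz).1 i = z i := by
  simp [fill, not_lt.2 hi]

/-! ### enumerations of the fibres -/

variable (B)

/-- indices of the fibres -/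
abbrev Ix : Type := Σ i : ℕ, B.V (i + 1)

/-- the fibres -/
abbrev Fib (p : Ix B) : Type := {e : B.E p.1 // B.r p.1 e = p.2}

instance (p : Ix B) : Finite (Fib B p) := B.r_fin p.1 p.2
instance (p : Ix B) : Nonempty (Fib B p) := ⟨⟨(B.r_surj p.1 p.2).choose, (B.r_surj p.1 p.2).choose_spec⟩⟩

/-- enumerations of a fibre -/
def Lin (p : Ix B) : Type := Fib B p ≃ Fin (Nat.card (Fib B p))

instance (p : Ix B) : TopologicalSpace (Lin B p) := ⊥
instance (p : Ix B) : DiscreteTopology (Lin B p) := ⟨rfl⟩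
instance (p : Ix B) : Finite (Lin B p) :=
  inferInstanceAs (Finite (Fib B p ≃ Fin (Nat.card (Fib B p))))
instance (p : Ix B) : Nonempty (Lin B p) := ⟨Finite.equivFin (Fib B p)⟩

/-- the space of orders -/
abbrev Om : Type := ∀ p : Ix B, Lin B p

instance : PolishSpace (Om B) := {}

variable {B}

/-- the rank of an edge -/
noncomputable def rk (ω : Om B) (i : ℕ) (e : B.E i) : ℕ := (show Fib B ⟨i, B.r i e⟩ ≃ Fin _ from ω ⟨i, B.r i e⟩) ⟨e, rfl⟩

/-- the number of edges with range `v` -/
noncomputable def num (B : Diagram) (i : ℕ) (v : B.V (i + 1)) : ℕ := Nat.card (Fib B ⟨i, v⟩)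

theorem rk_lt (ω : Om B) (i : ℕ) (e : B.E i) : rk ω i e < num B i (B.r i e) := Fin.is_lt _

theorem rk_inj (ω : Om B) {i : ℕ} {e f : B.E i} (h : B.r i e = B.r i f) (hr : rk ω i e = rk ω i f) :
    e = f := by
  have key : ∀ (v : B.V (i + 1)) (he : B.r i e = v) (hf : B.r i f = v),
      ((show Fib B ⟨i, v⟩ ≃ Fin _ from ω ⟨i, v⟩) ⟨e, he⟩ : ℕ) = ((show Fib B ⟨i, v⟩ ≃ Fin _ from ω ⟨i, v⟩) ⟨f, hf⟩ : ℕ) →
        e = f := by
    intro v he hf h
    have h1 := (show Fib B ⟨i, v⟩ ≃ Fin _ from ω ⟨i, v⟩).injective (Fin.ext h)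
    exact congrArg Subtype.val h1
  have h2 : ∀ (v : B.V (i + 1)) (hf : B.r i f = v),
      ((show Fib B ⟨i, v⟩ ≃ Fin _ from ω ⟨i, v⟩) ⟨f, hf⟩ : ℕ) = rk ω i f := by
    intro v hf
    subst hf
    rfl
  exact key (B.r i e) rfl h.symm (by rw [h2]; exact hr)

theorem exists_rk (ω : Om B) (i : ℕ) (v : B.V (i + 1)) {k : ℕ} (hk : k < num B i v) :
    ∃ e, B.r i e = v ∧ rk ω i e = k := by
  obtain ⟨⟨e, he⟩, h⟩ := (show Fib B ⟨i, v⟩ ≃ Fin _ from ω ⟨i, v⟩).surjective ⟨k, hk⟩
  refine ⟨e, he, ?_⟩
  have key : ∀ (v : B.V (i + 1)) (he : B.r i e = v),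
      ((show Fib B ⟨i, v⟩ ≃ Fin _ from ω ⟨i, v⟩) ⟨e, he⟩ : ℕ) = rk ω i e := by
    intro v he
    subst he
    rfl
  rw [← key v he, h]

theorem num_pos (i : ℕ) (v : B.V (i + 1)) : 0 < num B i v := by
  haveI h1 : Nonempty (Fib B ⟨i, v⟩) := ⟨⟨(B.r_surj i v).choose, (B.r_surj i v).choose_spec⟩⟩
  haveI h2 : Finite (Fib B ⟨i, v⟩) := B.r_fin i v
  exact Nat.card_pos

/-- the reversed enumeration of a fibre -/
noncomputable def revLin {p : Ix B} (σ : Lin B p) : Lin B p :=
  ((show Fib B p ≃ Fin (Nat.card (Fib B p)) from σ).trans Fin.revPerm : Fib B p ≃ Fin _)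

/-- the reversed enumeration -/
noncomputable def rev (ω : Om B) : Om B := fun p => revLin (ω p)

theorem rk_rev (ω : Om B) (i : ℕ) (e : B.E i) :
    rk (rev ω) i e + rk ω i e + 1 = num B i (B.r i e) := by
  have h1 := rk_lt ω i e
  have h2 : rk (rev ω) i e = num B i (B.r i e) - (rk ω i e + 1) := by
    show ((Fin.revPerm ((show Fib B ⟨i, B.r i e⟩ ≃ Fin _ from ω ⟨i, B.r i e⟩) ⟨e, rfl⟩) : Fin _) : ℕ) = _
    rw [Fin.revPerm_apply, Fin.val_rev]
    rfl
  omega

theorem rev_rev (ω : Om B) : rev (rev ω) = ω := by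
  funext p
  refine Equiv.ext fun e => ?_
  show Fin.revPerm (Fin.revPerm ((show Fib B p ≃ Fin _ from ω p) e)) = _
  simp

/-- reversal as a homeomorphism -/
noncomputable def revH : Om B ≃ₜ Om B where
  toFun := rev
  invFun := rev
  left_inv := rev_rev
  right_inv := rev_rev
  continuous_toFun := continuous_pi fun p => by
    have h1 : Continuous (revLin : Lin B p → Lin B p) := continuous_of_discreteTopology
    exact h1.comp (continuous_apply p)
  continuous_invFun := continuous_pi fun p => by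
    have h1 : Continuous (revLin : Lin B p → Lin B p) := continuous_of_discreteTopology
    exact h1.comp (continuous_apply p)

/-- maximal edges -/
def MaxE (ω : Om B) (i : ℕ) (e : B.E i) : Prop := rk ω i e + 1 = num B i (B.r i e)

theorem maxE_rev (ω : Om B) (i : ℕ) (e : B.E i) : MaxE (rev ω) i e ↔ rk ω i e = 0 := by
  unfold MaxE
  have := rk_rev ω i e
  omega

/-- the maximal edge with given range -/
theorem exists_mx (ω : Om B) (i : ℕ) (v : B.V (i + 1)) : ∃ e, B.r i e = v ∧ MaxE ω i e := by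
  obtain ⟨e, h1, h2⟩ := exists_rk ω i v (k := num B i v - 1) (Nat.sub_lt (num_pos i v) Nat.one_pos)
  refine ⟨e, h1, ?_⟩
  have := num_pos (B := B) i v
  unfold MaxE
  rw [h1, h2]
  omega

/-- the maximal edge with given range -/
noncomputable def mx (ω : Om B) (i : ℕ) (v : B.V (i + 1)) : B.E i := (exists_mx ω i v).choose

theorem r_mx (ω : Om B) (i : ℕ) (v : B.V (i + 1)) : B.r i (mx ω i v) = v :=
  (exists_mx ω i v).choose_spec.1

theorem maxE_mx (ω : Om B) (i : ℕ) (v : B.V (i + 1)) : MaxE ω i (mx ω i v) :=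
  (exists_mx ω i v).choose_spec.2

theorem maxE_iff (ω : Om B) (i : ℕ) (e : B.E i) : MaxE ω i e ↔ e = mx ω i (B.r i e) := by
  constructor
  · intro h
    refine rk_inj ω (r_mx ω i _).symm ?_
    have h1 := maxE_mx ω i (B.r i e)
    unfold MaxE at h h1
    rw [r_mx] at h1
    omega
  · intro h
    rw [h]
    exact maxE_mx ω i _

/-- The set of pairs `(ω, x)` with `x` maximal for `ω`. -/
def maxC (B : Diagram) : Set (Om B × Path B) := {p | ∀ i, MaxE p.1 i (p.2.1 i)}

theorem continuous_coord (i : ℕ) : Continuous (fun x : Path B => x.1 i) :=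
  (continuous_apply i).comp continuous_subtype_val

theorem isClosed_maxC : IsClosed (maxC B) := by
  have : maxC B = ⋂ i, (⋃ e : B.E i, {p : Om B × Path B | p.2.1 i = e ∧ ¬ MaxE p.1 i e})ᶜ := by
    ext p
    simp only [maxC, mem_setOf_eq, mem_iInter, mem_compl_iff, mem_iUnion, not_exists, not_and,
      not_not]
    constructor
    · intro h i e he
      rw [← he]
      exact h i
    · intro h i
      exact h i _ rfl
  rw [this]
  refine isClosed_iInter fun i => isClosed_compl_iff.2 (isOpen_iUnion fun e => ?_)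
  have h1 : IsOpen {p : Om B × Path B | p.2.1 i = e} :=
    (isOpen_discrete {e}).preimage ((continuous_coord i).comp continuous_snd)
  have h2 : IsOpen {p : Om B × Path B | ¬ MaxE p.1 i e} := by
    have h3 : IsOpen {σ : Lin B ⟨i, B.r i e⟩ |
        ¬ (((show Fib B ⟨i, B.r i e⟩ ≃ Fin _ from σ) ⟨e, rfl⟩ : ℕ) + 1 = num B i (B.r i e))} :=
      isOpen_discrete _
    exact h3.preimage ((continuous_apply (⟨i, B.r i e⟩ : Ix B)).comp continuous_fst)
  exact h1.inter h2

/-- Modifying an order in finitely many fibres does not change the number of maximal paths. -/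
theorem sec_equiv (ω ω' : Om B) (h : {p | ω p ≠ ω' p}.Finite) :
    Nonempty (sec (maxC B) ω ≃ sec (maxC B) ω') := by
  classical
  obtain ⟨M, hM⟩ : ∃ M : ℕ, ∀ p : Ix B, M ≤ p.1 → ω p = ω' p := by
    refine ⟨h.toFinset.sup (fun p => p.1) + 1, fun p hp => ?_⟩
    by_contra hcon
    have h1 : p ∈ h.toFinset := h.mem_toFinset.2 hcon
    have h2 := Finset.le_sup (f := fun p : Ix B => p.1) h1
    omega
  have key : ∀ (α β : Om B), (∀ p : Ix B, M ≤ p.1 → α p = β p) → ∀ x : Path B,
      (∀ i, MaxE α i (x.1 i)) →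
      (∀ i, MaxE β i ((fill (mx β) (r_mx β) M x.1 (fun i _ => x.2 i)).1 i)) := by
    intro α β hab x hx i
    by_cases hi : i < M
    · rw [fill_lt _ _ _ _ _ hi, maxE_iff]
      exact up_mem (mx β) (r_mx β) M _ i hi
    · rw [fill_ge _ _ _ _ _ (not_lt.1 hi)]
      have h1 := hx i
      unfold MaxE rk at h1 ⊢
      rw [← hab ⟨i, B.r i (x.1 i)⟩ (not_lt.1 hi)]
      exact h1
  have key2 : ∀ (α β : Om B), ∀ x : Path B, (∀ i, MaxE α i (x.1 i)) →
      fill (mx α) (r_mx α) M (fill (mx β) (r_mx β) M x.1 (fun i _ => x.2 i)).1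
        (fun i _ => (fill (mx β) (r_mx β) M x.1 (fun i _ => x.2 i)).2 i) = x := by
    intro α β x hx
    apply Subtype.ext
    funext i
    by_cases hi : i < M
    · rw [fill_lt _ _ _ _ _ hi, fill_ge _ _ _ _ _ (le_refl M)]
      exact (up_unique (mx α) x.1 M (fun i _ => x.2 i)
        (fun i _ => (maxE_iff α i _).1 (hx i)) i hi).symm
    · rw [fill_ge _ _ _ _ _ (not_lt.1 hi), fill_ge _ _ _ _ _ (not_lt.1 hi)]
  exact ⟨{ toFun := fun x => ⟨fill (mx ω') (r_mx ω') M x.1.1 (fun i _ => x.1.2 i),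
             key ω ω' hM x.1 x.2⟩
           invFun := fun x => ⟨fill (mx ω) (r_mx ω) M x.1.1 (fun i _ => x.1.2 i),
             key ω' ω (fun p hp => (hM p hp).symm) x.1 x.2⟩
           left_inv := fun x => Subtype.ext (key2 ω ω' x.1 x.2)
           right_inv := fun x => Subtype.ext (key2 ω' ω x.1 x.2) }⟩

/-- There is an order with as many maximal as minimal paths. -/
theorem exists_order (B : Diagram) :
    ∃ ω : Om B, Nonempty (sec (maxC B) ω ≃ sec (maxC B) (rev ω)) := by
  obtain ⟨ω, hω⟩ := exists_generic (fam (maxC B)) (analytic_fam isClosed_maxC)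
    (fun n ω ω' h => by
      obtain ⟨e⟩ := sec_equiv ω ω' h
      exact fam_congr e n) revH
  exact ⟨ω, equiv_of_fam isClosed_maxC hω⟩

end Pool.Agent.X218.BV
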