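import Mathlib
import Pool.Agent.X218.BV.Diagram

/-!
# The Vershik map of an enumeration
-/

set_option linter.style.haveILetI false

open Set Filter Topology MeasureTheory TopologicalSpace

namespace Pool.Agent.X218.BV

variable {B : Diagram}

/-- the Vershik relation -/
def VR (ω : Om B) (x y : Path B) : Prop :=
  ∃ n, (∀ i < n, MaxE ω i (x.1 i)) ∧ ¬ MaxE ω n (x.1 n) ∧
    (B.r n (x.1 n) = B.r n (y.1 n) ∧ rk ω n (y.1 n) = rk ω n (x.1 n) + 1) ∧
    (∀ i, n < i → y.1 i = x.1 i) ∧ ∀ i < n, MaxE (rev ω) i (y.1 i)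

theorem VR.rev {ω : Om B} {x y : Path B} (h : VR ω x y) : VR (rev ω) y x := by
  obtain ⟨n, h1, h2, ⟨h3, h3'⟩, h4, h5⟩ := h
  refine ⟨n, h5, ?_, ⟨h3.symm, ?_⟩, fun i hi => (h4 i hi).symm, ?_⟩
  · rw [maxE_rev, h3']
    omega
  · have e1 := rk_rev ω n (x.1 n)
    have e2 := rk_rev ω n (y.1 n)
    rw [← h3] at e2
    omega
  · rw [rev_rev]
    exact h1

theorem exists_VR (ω : Om B) (x : Path B) (hx : x ∉ sec (maxC B) ω) : ∃ y, VR ω x y := by
  classical
  have hx' : ∃ n, ¬ MaxE ω n (x.1 n) := by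
    by_contra hcon
    push Not at hcon
    exact hx hcon
  let n := Nat.find hx'
  have hn : ¬ MaxE ω n (x.1 n) := Nat.find_spec hx'
  have hlt : ∀ i < n, MaxE ω i (x.1 i) := fun i hi => not_not.1 (Nat.find_min hx' hi)
  have h1 := rk_lt ω n (x.1 n)
  have h2 : rk ω n (x.1 n) + 1 < num B n (B.r n (x.1 n)) := by
    unfold MaxE at hn
    omega
  obtain ⟨e, he1, he2⟩ := exists_rk ω n _ h2
  let z : ∀ i, B.E i := Function.update x.1 n e
  have hzn : z n = e := Function.update_self _ _ _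
  have hzne : ∀ i, i ≠ n → z i = x.1 i := fun i hi => Function.update_of_ne hi _ _
  have hz : ∀ i, n ≤ i → B.r i (z i) = B.s (i + 1) (z (i + 1)) := by
    intro i hi
    rw [hzne (i + 1) (by omega)]
    by_cases h : i = n
    · subst h
      rw [hzn, he1]
      exact x.2 _
    · rw [hzne i h]
      exact x.2 i
  refine ⟨fill (mx (rev ω)) (r_mx (rev ω)) n z hz, n, hlt, hn, ?_, ?_, ?_⟩
  · rw [fill_ge _ _ _ _ _ (le_refl n), hzn]
    exact ⟨he1.symm, he2⟩
  · intro i hi
    rw [fill_ge _ _ _ _ _ hi.le, hzne i (ne_of_gt hi)]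
  · intro i hi
    rw [fill_lt _ _ _ _ _ hi, maxE_iff]
    exact up_mem (mx (rev ω)) (r_mx (rev ω)) n _ i hi

/-- The Vershik image only depends on finitely many coordinates, coordinate by coordinate. -/
theorem VR.local {ω : Om B} {x y : Path B} (h : VR ω x y) (i : ℕ) :
    ∃ m, ∀ x' y' : Path B, VR ω x' y' → (∀ k ≤ m, x'.1 k = x.1 k) → y'.1 i = y.1 i := by
  obtain ⟨n, h1, h2, ⟨h3, h3'⟩, h4, h5⟩ := h
  refine ⟨max n i, ?_⟩
  rintro x' y' ⟨n', h1', h2', ⟨h6, h6'⟩, h7, h8⟩ hag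
  have hnn : n' = n := by
    rcases lt_trichotomy n' n with h | h | h
    · exact absurd (by rw [hag n' (h.le.trans (le_max_left _ _))]; exact h1 n' h) h2'
    · exact h
    · have := h1' n h
      rw [hag n (le_max_left _ _)] at this
      exact absurd this h2
  subst hnn
  have hxn := hag n' (le_max_left _ _)
  have hyn : y'.1 n' = y.1 n' := by
    refine rk_inj ω ?_ ?_
    · rw [← h6, ← h3, hxn]
    · rw [h6', h3', hxn]
  rcases lt_trichotomy i n' with h | h | h
  · have e1 := up_unique (mx (BV.rev ω)) y.1 n' (fun k _ => y.2 k)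
      (fun k hk => (maxE_iff _ k _).1 (h5 k hk)) i h
    have e2 := up_unique (mx (BV.rev ω)) y'.1 n' (fun k _ => y'.2 k)
      (fun k hk => (maxE_iff _ k _).1 (h8 k hk)) i h
    rw [e1, e2, hyn]
  · rw [h, hyn]
  · rw [h4 i h, h7 i h, hag i (le_max_right _ _)]

theorem VR.unique {ω : Om B} {x y y' : Path B} (h : VR ω x y) (h' : VR ω x y') : y' = y := by
  apply Subtype.ext
  funext i
  obtain ⟨m, hm⟩ := h.local i
  exact hm x y' h' (fun _ _ => rfl)

theorem VR.notMem {ω : Om B} {x y : Path B} (h : VR ω x y) : y ∉ sec (maxC B) (BV.rev ω) := by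
  obtain ⟨n, h1, h2, -⟩ := h.rev
  intro hy
  exact h2 (hy n)

/-- The Vershik map on the non-maximal paths. -/
noncomputable def vmap (ω : Om B) (x : ((sec (maxC B) ω)ᶜ : Set (Path B))) :
    ((sec (maxC B) (rev ω))ᶜ : Set (Path B)) :=
  ⟨(exists_VR ω x.1 x.2).choose, (exists_VR ω x.1 x.2).choose_spec.notMem⟩

theorem vmap_spec (ω : Om B) (x : ((sec (maxC B) ω)ᶜ : Set (Path B))) : VR ω x.1 (vmap ω x).1 :=
  (exists_VR ω x.1 x.2).choose_spec

theorem continuous_vmap (ω : Om B) : Continuous (vmap ω) := by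
  refine Continuous.subtype_mk ?_ _
  refine Continuous.subtype_mk ?_ _
  refine continuous_pi fun i => ?_
  rw [continuous_iff_continuousAt]
  intro x
  obtain ⟨m, hm⟩ := (vmap_spec ω x).local i
  have hopen : IsOpen {x' : ((sec (maxC B) ω)ᶜ : Set (Path B)) | ∀ k ≤ m, x'.1.1 k = x.1.1 k} := by
    have : {x' : ((sec (maxC B) ω)ᶜ : Set (Path B)) | ∀ k ≤ m, x'.1.1 k = x.1.1 k} =
        ⋂ k ∈ Finset.range (m + 1), (fun x' : ((sec (maxC B) ω)ᶜ : Set (Path B)) => x'.1.1 k) ⁻¹'
          {x.1.1 k} := by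
      ext x'
      simp only [mem_setOf_eq, mem_iInter, Finset.mem_range, mem_preimage, mem_singleton_iff]
      exact ⟨fun h k hk => h k (by omega), fun h k hk => h k (by omega)⟩
    rw [this]
    exact isOpen_biInter_finset fun k _ => (isOpen_discrete _).preimage
      ((continuous_coord k).comp continuous_subtype_val)
  refine (tendsto_const_nhds (x := (vmap ω x).1.1 i)).congr' ?_
  filter_upwards [hopen.mem_nhds (fun _ _ => rfl)] with x' hx'
  exact (hm x'.1 (vmap ω x').1 (vmap_spec ω x') hx').symm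

theorem notMem_congr {α β : Om B} (h : α = β) {x : Path B} (hx : x ∉ sec (maxC B) α) :
    x ∉ sec (maxC B) β := h ▸ hx

theorem VR_congr {α β : Om B} (h : α = β) {x y : Path B} (hx : VR α x y) : VR β x y := h ▸ hx

/-- The Vershik map as a Borel isomorphism. -/
noncomputable def vequiv (ω : Om B) :
    ((sec (maxC B) ω)ᶜ : Set (Path B)) ≃ᵐ ((sec (maxC B) (rev ω))ᶜ : Set (Path B)) where
  toFun := vmap ω
  invFun y := ⟨(vmap (rev ω) y).1, notMem_congr (rev_rev ω) (vmap (rev ω) y).2⟩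
  left_inv x := by
    apply Subtype.ext
    have h1 := (vmap_spec ω x).rev
    have h2 := vmap_spec (rev ω) (vmap ω x)
    exact h1.unique h2
  right_inv y := by
    apply Subtype.ext
    have h1 := VR_congr (rev_rev ω) (vmap_spec (rev ω) y).rev
    exact h1.unique (vmap_spec ω ⟨(vmap (rev ω) y).1, notMem_congr (rev_rev ω) (vmap (rev ω) y).2⟩)
  measurable_toFun := (continuous_vmap ω).measurable
  measurable_invFun :=
    (Measurable.subtype_mk (measurable_subtype_coe.comp (continuous_vmap (rev ω)).measurable))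

/-- There are an order and a Borel bijection extending its Vershik map. -/
theorem exists_ext (B : Diagram) : ∃ (ω : Om B) (T : Path B ≃ᵐ Path B),
    ∀ x, x ∉ sec (maxC B) ω → VR ω x (T x) := by
  classical
  obtain ⟨ω, ⟨e⟩⟩ := exists_order B
  have hm : ∀ α : Om B, MeasurableSet (sec (maxC B) α) := fun α =>
    (isClosed_sec isClosed_maxC α).measurableSet
  haveI : StandardBorelSpace (sec (maxC B) ω) := (hm ω).standardBorel
  haveI : StandardBorelSpace (sec (maxC B) (rev ω)) := (hm (rev ω)).standardBorel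
  let e1 : sec (maxC B) ω ≃ᵐ sec (maxC B) (rev ω) := PolishSpace.Equiv.measurableEquiv e
  let T : Path B ≃ᵐ Path B := (MeasurableEquiv.sumCompl (hm ω)).symm.trans
    ((MeasurableEquiv.sumCongr e1 (vequiv ω)).trans (MeasurableEquiv.sumCompl (hm (rev ω))))
  refine ⟨ω, T, fun x hx => ?_⟩
  have h1 : T x = (vmap ω ⟨x, hx⟩).1 := by
    show (MeasurableEquiv.sumCompl (hm (rev ω))) ((MeasurableEquiv.sumCongr e1 (vequiv ω))
      ((MeasurableEquiv.sumCompl (hm ω)).symm x)) = _
    have h2 : (MeasurableEquiv.sumCompl (hm ω)).symm x = Sum.inr ⟨x, hx⟩ :=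
      Equiv.sumCompl_symm_apply_of_neg hx
    rw [h2]
    rfl
  rw [h1]
  exact vmap_spec ω ⟨x, hx⟩

end Pool.Agent.X218.BV
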